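import Pool.Agent.W92.ET.Base

/-!
# Project ET: upper bound for the energy, by symmetry of quadruples
-/

set_option autoImplicit false

namespace Pool.Agent.W503.ET

open Pool.Agent.W92.ET
open Finset

noncomputable section

/-- the summand -/
def FF (d e n : ℝ) : ℝ := 1 / n * GG ((d / n) ^ 2) ((e / n) ^ 2)

theorem kk_eq (d b b' : ℝ) (hd : 0 < d) (hb : 0 ≤ b) (hb' : 0 ≤ b') :
    1 / d * kk ((2 * b + d) / d) ((2 * b' + d) / d) = FF d (b' - b) (b + b' + d) := by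
  have hn : 0 < b + b' + d := by positivity
  have h1 : (2 * b + d) / d + (2 * b' + d) / d = 2 * (b + b' + d) / d := by
    field_simp
    ring
  have h2 : 2 / ((2 * b + d) / d + (2 * b' + d) / d) = d / (b + b' + d) := by
    rw [h1]
    field_simp
  have h3 : ((2 * b' + d) / d - (2 * b + d) / d) / ((2 * b + d) / d + (2 * b' + d) / d) =
      (b' - b) / (b + b' + d) := by
    rw [h1]
    field_simp
    ring
  unfold kk FF
  rw [h2, h3, ← mul_assoc]
  congr 1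
  field_simp

theorem FF_neg (d e n : ℝ) : FF d (-e) n = FF d e n := by
  unfold FF
  rw [neg_div, neg_sq]

theorem gg_add {X V : ℝ} (hX : 0 ≤ X) (hV : 0 ≤ V) : GG X V + GG V X ≤ 1 := by
  unfold GG
  nlinarith [mul_nonneg hX hV, sq_nonneg (X + V - 331 / 342)]

theorem FF_add {d e n : ℝ} (hn : 0 < n) : FF d e n + FF e d n ≤ 1 / n := by
  unfold FF
  rw [← mul_add]
  have h := gg_add (sq_nonneg (d / n)) (sq_nonneg (e / n))
  have h1 : 0 < 1 / n := by positivity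
  nlinarith

theorem sym_sum (S : Finset ℕ) (g : ℕ → ℕ → ℝ) (hg : ∀ b b', g b b' = g b' b) :
    ∑ b ∈ S, ∑ b' ∈ S, g b b' =
      ∑ b ∈ S, g b b + 2 * ∑ b ∈ S, ∑ b' ∈ S, (if b < b' then g b b' else 0) := by
  have h1 : ∀ b b', g b b' = (if b = b' then g b b' else 0) + (if b < b' then g b b' else 0) +
      (if b' < b then g b b' else 0) := by
    intro b b'
    rcases lt_trichotomy b b' with h | h | h
    · rw [if_neg h.ne, if_pos h, if_neg (by omega)]
      ring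
    · rw [if_pos h, if_neg (by omega), if_neg (by omega)]
      ring
    · rw [if_neg (by omega), if_neg (by omega), if_pos h]
      ring
  have h2 : ∑ b ∈ S, ∑ b' ∈ S, g b b' = ∑ b ∈ S, ∑ b' ∈ S, (if b = b' then g b b' else 0) +
      ∑ b ∈ S, ∑ b' ∈ S, (if b < b' then g b b' else 0) +
      ∑ b ∈ S, ∑ b' ∈ S, (if b' < b then g b b' else 0) := by
    rw [← sum_add_distrib, ← sum_add_distrib]
    refine sum_congr rfl fun b _ => ?_
    rw [← sum_add_distrib, ← sum_add_distrib]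
    exact sum_congr rfl fun b' _ => h1 b b'
  have h3 : ∑ b ∈ S, ∑ b' ∈ S, (if b = b' then g b b' else 0) = ∑ b ∈ S, g b b := by
    refine sum_congr rfl fun b hb => ?_
    rw [sum_ite_eq S b (fun b' => g b b'), if_pos hb]
  have h4 : ∑ b ∈ S, ∑ b' ∈ S, (if b' < b then g b b' else 0) =
      ∑ b ∈ S, ∑ b' ∈ S, (if b < b' then g b b' else 0) := by
    rw [sum_comm]
    refine sum_congr rfl fun b _ => sum_congr rfl fun b' _ => ?_
    rw [hg b' b]
  rw [h2, h3, h4]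
  ring

/-- the quadruples -/
def QQ (A : Finset ℕ) (N : ℕ) : Finset (ℕ × (ℕ × ℕ)) :=
  (A ×ˢ (Icc 1 N ×ˢ Icc 1 N)).filter
    (fun q => q.1 + q.2.1 ∈ A ∧ q.1 + q.2.2 ∈ A ∧ q.1 + q.2.1 + q.2.2 ∈ A)

theorem mem_QQ {A : Finset ℕ} {N : ℕ} {q : ℕ × (ℕ × ℕ)} : q ∈ QQ A N ↔
    (q.1 ∈ A ∧ (1 ≤ q.2.1 ∧ q.2.1 ≤ N) ∧ (1 ≤ q.2.2 ∧ q.2.2 ≤ N)) ∧
      q.1 + q.2.1 ∈ A ∧ q.1 + q.2.2 ∈ A ∧ q.1 + q.2.1 + q.2.2 ∈ A := by
  unfold QQ
  rw [mem_filter, mem_product, mem_product, mem_Icc, mem_Icc]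

/-- the sum of the outer (or inner) pair -/
def nn (q : ℕ × (ℕ × ℕ)) : ℕ := 2 * q.1 + q.2.1 + q.2.2

theorem inner_sum (A : Finset ℕ) (N : ℕ) (hA : ∀ a ∈ A, 1 ≤ a ∧ a ≤ N) (b d : ℕ) (g : ℕ → ℝ) :
    ∑ b' ∈ Bd A d, (if b < b' then g b' else 0) =
      ∑ e ∈ Icc 1 N, (if b + e ∈ A ∧ b + d + e ∈ A then g (b + e) else 0) := by
  rw [← sum_filter, ← sum_filter]
  refine sum_nbij' (fun b' => b' - b) (fun e => b + e) ?_ ?_ ?_ ?_ ?_
  · intro b' hb'
    rw [mem_filter] at hb' ⊢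
    unfold Bd at hb'
    rw [mem_filter] at hb'
    obtain ⟨⟨h1, h2⟩, h3⟩ := hb'
    have h4 := hA b' h1
    rw [mem_Icc]
    have e1 : b + (b' - b) = b' := by omega
    have e2 : b + d + (b' - b) = b' + d := by omega
    rw [e1, e2]
    exact ⟨by omega, h1, h2⟩
  · intro e he
    rw [mem_filter] at he ⊢
    unfold Bd
    rw [mem_filter]
    obtain ⟨h1, h2, h3⟩ := he
    rw [mem_Icc] at h1
    have e2 : b + e + d = b + d + e := by omega
    rw [e2]
    exact ⟨⟨h2, h3⟩, by omega⟩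
  · intro b' hb'
    rw [mem_filter] at hb'
    show b + (b' - b) = b'
    omega
  · intro e _
    show b + e - b = e
    omega
  · intro b' hb'
    rw [mem_filter] at hb'
    show g b' = g (b + (b' - b))
    have e1 : b + (b' - b) = b' := by omega
    rw [e1]

theorem EN_eq (A : Finset ℕ) (N : ℕ) (hA : ∀ a ∈ A, 1 ≤ a ∧ a ≤ N) : EN A N =
    ∑ x ∈ Pr A, 1 / ((x.1 : ℝ) + x.2) * GG ((((x.2 : ℝ) - x.1) / (x.1 + x.2)) ^ 2) 0 +
      2 * ∑ q ∈ QQ A N, FF q.2.1 q.2.2 (nn q) := by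
  have h1 : EN A N = ∑ d ∈ Icc 1 N, ∑ b ∈ Bd A d, ∑ b' ∈ Bd A d,
      FF d ((b' : ℝ) - b) (b + b' + d) := by
    unfold EN
    refine sum_congr rfl fun d hd => sum_congr rfl fun b _ => sum_congr rfl fun b' _ => ?_
    rw [mem_Icc] at hd
    exact kk_eq d b b' (by exact_mod_cast (by omega : 0 < d)) (Nat.cast_nonneg b)
      (Nat.cast_nonneg b')
  have h2 : ∀ d : ℕ, ∑ b ∈ Bd A d, ∑ b' ∈ Bd A d, FF d ((b' : ℝ) - b) (b + b' + d) =
      ∑ b ∈ Bd A d, FF d 0 (b + b + d) + 2 * ∑ b ∈ Bd A d, ∑ b' ∈ Bd A d,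
        (if b < b' then FF d ((b' : ℝ) - b) (b + b' + d) else 0) := by
    intro d
    have h3 := sym_sum (Bd A d) (fun b b' => FF d ((b' : ℝ) - b) (b + b' + d)) (by
      intro b b'
      show FF d ((b' : ℝ) - b) (b + b' + d) = FF d ((b : ℝ) - b') (b' + b + d)
      rw [← FF_neg, neg_sub, add_comm (b : ℝ) b'])
    rw [h3]
    congr 1
    refine sum_congr rfl fun b _ => ?_
    show FF d ((b : ℝ) - b) (b + b + d) = _
    rw [sub_self]
  rw [h1, sum_congr rfl fun d _ => h2 d, sum_add_distrib, ← mul_sum]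
  congr 1
  · -- the diagonal
    rw [sum_sigma']
    refine sum_bij' (fun (x : Σ _ : ℕ, ℕ) _ => (x.2, x.2 + x.1))
      (fun (x : ℕ × ℕ) _ => (⟨x.2 - x.1, x.1⟩ : Σ _ : ℕ, ℕ)) ?_ ?_ ?_ ?_ ?_
    · intro x hx
      rw [mem_sigma] at hx
      obtain ⟨h3, h4⟩ := hx
      rw [mem_Icc] at h3
      unfold Bd at h4
      rw [mem_filter] at h4
      unfold Pr
      rw [mem_filter, mem_product]
      exact ⟨⟨h4.1, h4.2⟩, by show x.2 < x.2 + x.1; omega⟩
    · intro x hx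
      unfold Pr at hx
      rw [mem_filter, mem_product] at hx
      obtain ⟨⟨h3, h4⟩, h5⟩ := hx
      have h6 := hA x.2 h4
      have h7 := hA x.1 h3
      rw [mem_sigma, mem_Icc]
      refine ⟨⟨by show 1 ≤ x.2 - x.1; omega, by show x.2 - x.1 ≤ N; omega⟩, ?_⟩
      unfold Bd
      rw [mem_filter]
      refine ⟨h3, ?_⟩
      show x.1 + (x.2 - x.1) ∈ A
      have e1 : x.1 + (x.2 - x.1) = x.2 := by omega
      rw [e1]
      exact h4
    · rintro ⟨d, b⟩ _
      show (⟨b + d - b, b⟩ : Σ _ : ℕ, ℕ) = ⟨d, b⟩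
      have e1 : b + d - b = d := by omega
      rw [e1]
    · rintro ⟨a, c⟩ hx
      unfold Pr at hx
      rw [mem_filter] at hx
      have h5 : a < c := hx.2
      show (a, a + (c - a)) = (a, c)
      have e1 : a + (c - a) = c := by omega
      rw [e1]
    · rintro ⟨d, b⟩ _
      show FF d 0 ((b : ℝ) + b + d) = 1 / ((b : ℝ) + ((b + d : ℕ) : ℝ)) *
        GG (((((b + d : ℕ) : ℝ) - b) / (b + ((b + d : ℕ) : ℝ))) ^ 2) 0
      unfold FF
      push_cast
      have e1 : (b : ℝ) + (b + d) = b + b + d := by ring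
      have e2 : (b : ℝ) + d - b = d := by ring
      rw [e1, e2, zero_div]
      norm_num
  · -- the other terms
    congr 1
    have h3 : ∀ d ∈ Icc 1 N, ∑ b ∈ Bd A d, ∑ b' ∈ Bd A d,
        (if b < b' then FF d ((b' : ℝ) - b) (b + b' + d) else 0) =
        ∑ p ∈ A, ∑ e ∈ Icc 1 N, (if p + d ∈ A ∧ p + e ∈ A ∧ p + d + e ∈ A then
          FF d e ((2 * p + d + e : ℕ) : ℝ) else 0) := by
      intro d _
      unfold Bd
      rw [sum_filter]
      refine sum_congr rfl fun b _ => ?_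
      by_cases hbd : b + d ∈ A
      · rw [if_pos hbd]
        have h4 := inner_sum A N hA b d (fun b' => FF d ((b' : ℝ) - b) (b + b' + d))
        unfold Bd at h4
        rw [h4]
        refine sum_congr rfl fun e _ => ?_
        by_cases h5 : b + e ∈ A ∧ b + d + e ∈ A
        · rw [if_pos h5, if_pos ⟨hbd, h5⟩]
          push_cast
          congr 1
          · ring
          · ring
        · rw [if_neg h5, if_neg (fun h6 => h5 h6.2)]
      · rw [if_neg hbd]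
        symm
        refine sum_eq_zero fun e _ => ?_
        rw [if_neg (fun h6 => hbd h6.1)]
    rw [sum_congr rfl h3, sum_comm]
    unfold QQ
    rw [sum_filter, sum_product]
    refine sum_congr rfl fun p _ => ?_
    rw [sum_product]
    rfl

theorem QQ_swap (A : Finset ℕ) (N : ℕ) : ∑ q ∈ QQ A N, FF q.2.1 q.2.2 (nn q) =
    ∑ q ∈ QQ A N, FF q.2.2 q.2.1 (nn q) := by
  refine sum_nbij' (fun q => (q.1, (q.2.2, q.2.1))) (fun q => (q.1, (q.2.2, q.2.1))) ?_ ?_ ?_ ?_ ?_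
  · intro q hq
    rw [mem_QQ] at hq ⊢
    obtain ⟨⟨h1, h2, h3⟩, h4, h5, h6⟩ := hq
    refine ⟨⟨h1, h3, h2⟩, h5, h4, ?_⟩
    show q.1 + q.2.2 + q.2.1 ∈ A
    rwa [add_right_comm]
  · intro q hq
    rw [mem_QQ] at hq ⊢
    obtain ⟨⟨h1, h2, h3⟩, h4, h5, h6⟩ := hq
    refine ⟨⟨h1, h3, h2⟩, h5, h4, ?_⟩
    show q.1 + q.2.2 + q.2.1 ∈ A
    rwa [add_right_comm]
  · intro q _
    rfl
  · intro q _
    rfl
  · intro q _
    have h1 : nn (q.1, (q.2.2, q.2.1)) = nn q := by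
      unfold nn
      show 2 * q.1 + q.2.2 + q.2.1 = 2 * q.1 + q.2.1 + q.2.2
      omega
    show FF q.2.1 q.2.2 (nn q) = FF q.2.1 q.2.2 (nn (q.1, (q.2.2, q.2.1)))
    rw [h1]

theorem card_bound (A : Finset ℕ) (N n : ℕ) :
    (((QQ A N).filter (fun q => nn q = n)).card : ℝ) ≤ (rs A n : ℝ) * ((rs A n : ℝ) - 1) +
      if (∃ a ∈ A, 2 * a = n) then (rs A n : ℝ) else 0 := by
  classical
  obtain ⟨R, hR⟩ : ∃ R : Finset (ℕ × ℕ), R = (Pr A).filter (fun x => x.1 + x.2 = n) := ⟨_, rfl⟩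
  have hrs : rs A n = R.card := by rw [hR]; rfl
  have hmem : ∀ x : ℕ × ℕ, x ∈ R ↔ (x.1 ∈ A ∧ x.2 ∈ A) ∧ x.1 < x.2 ∧ x.1 + x.2 = n := by
    intro x
    rw [hR, mem_filter]
    unfold Pr
    rw [mem_filter, mem_product]
    tauto
  have hsplit : ((QQ A N).filter (fun q => nn q = n)).card =
      (((QQ A N).filter (fun q => nn q = n)).filter (fun q => q.2.1 = q.2.2)).card +
      (((QQ A N).filter (fun q => nn q = n)).filter (fun q => ¬ q.2.1 = q.2.2)).card :=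
    (card_filter_add_card_filter_not _).symm
  have hoff : (((QQ A N).filter (fun q => nn q = n)).filter (fun q => ¬ q.2.1 = q.2.2)).card ≤
      R.offDiag.card := by
    refine card_le_card_of_injOn (fun q => if q.2.1 < q.2.2 then
      ((q.1, q.1 + q.2.1 + q.2.2), (q.1 + q.2.1, q.1 + q.2.2)) else
      ((q.1 + q.2.2, q.1 + q.2.1), (q.1, q.1 + q.2.1 + q.2.2))) ?_ ?_
    · intro q hq
      rw [mem_coe, mem_filter, mem_filter, mem_QQ] at hq
      obtain ⟨⟨⟨⟨h1, h2, h3⟩, h4, h5, h6⟩, h7⟩, h8⟩ := hq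
      unfold nn at h7
      show (if q.2.1 < q.2.2 then
        ((q.1, q.1 + q.2.1 + q.2.2), (q.1 + q.2.1, q.1 + q.2.2)) else
        ((q.1 + q.2.2, q.1 + q.2.1), (q.1, q.1 + q.2.1 + q.2.2))) ∈
          (R.offDiag : Set ((ℕ × ℕ) × (ℕ × ℕ)))
      rw [mem_coe]
      by_cases h9 : q.2.1 < q.2.2
      · rw [if_pos h9, mem_offDiag, hmem, hmem]
        refine ⟨⟨⟨h1, h6⟩, ?_, ?_⟩, ⟨⟨h4, h5⟩, ?_, ?_⟩, ?_⟩
        · show q.1 < q.1 + q.2.1 + q.2.2
          omega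
        · show q.1 + (q.1 + q.2.1 + q.2.2) = n
          omega
        · show q.1 + q.2.1 < q.1 + q.2.2
          omega
        · show q.1 + q.2.1 + (q.1 + q.2.2) = n
          omega
        · intro h10
          have h11 : q.1 = q.1 + q.2.1 := (Prod.mk.inj h10).1
          omega
      · rw [if_neg h9, mem_offDiag, hmem, hmem]
        refine ⟨⟨⟨h5, h4⟩, ?_, ?_⟩, ⟨⟨h1, h6⟩, ?_, ?_⟩, ?_⟩
        · show q.1 + q.2.2 < q.1 + q.2.1
          omega
        · show q.1 + q.2.2 + (q.1 + q.2.1) = n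
          omega
        · show q.1 < q.1 + q.2.1 + q.2.2
          omega
        · show q.1 + (q.1 + q.2.1 + q.2.2) = n
          omega
        · intro h10
          have h11 : q.1 + q.2.2 = q.1 := (Prod.mk.inj h10).1
          omega
    · rintro ⟨p, d, e⟩ hq ⟨p', d', e'⟩ hq' h
      rw [mem_coe, mem_filter, mem_filter, mem_QQ] at hq hq'
      obtain ⟨⟨⟨⟨h1, h2, h3⟩, h4, h5, h6⟩, h7⟩, h8⟩ := hq
      obtain ⟨⟨⟨⟨h1', h2', h3'⟩, h4', h5', h6'⟩, h7'⟩, h8'⟩ := hq'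
      dsimp only at h2 h3 h8 h2' h3' h8' h
      by_cases c1 : d < e
      · by_cases c2 : d' < e'
        · rw [if_pos c1, if_pos c2] at h
          simp only [Prod.mk.injEq] at h ⊢
          omega
        · rw [if_pos c1, if_neg c2] at h
          simp only [Prod.mk.injEq] at h ⊢
          omega
      · by_cases c2 : d' < e'
        · rw [if_neg c1, if_pos c2] at h
          simp only [Prod.mk.injEq] at h ⊢
          omega
        · rw [if_neg c1, if_neg c2] at h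
          simp only [Prod.mk.injEq] at h ⊢
          omega
  have hdiag : (((QQ A N).filter (fun q => nn q = n)).filter (fun q => q.2.1 = q.2.2)).card ≤
      if (∃ a ∈ A, 2 * a = n) then R.card else 0 := by
    split_ifs with hex
    · refine card_le_card_of_injOn (fun q => (q.1, q.1 + q.2.1 + q.2.2)) ?_ ?_
      · intro q hq
        rw [mem_coe, mem_filter, mem_filter, mem_QQ] at hq
        obtain ⟨⟨⟨⟨h1, h2, h3⟩, h4, h5, h6⟩, h7⟩, h8⟩ := hq
        unfold nn at h7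
        rw [mem_coe, hmem]
        refine ⟨⟨h1, h6⟩, ?_, ?_⟩
        · show q.1 < q.1 + q.2.1 + q.2.2
          omega
        · show q.1 + (q.1 + q.2.1 + q.2.2) = n
          omega
      · rintro ⟨p, d, e⟩ hq ⟨p', d', e'⟩ hq' h
        rw [mem_coe, mem_filter, mem_filter, mem_QQ] at hq hq'
        obtain ⟨⟨⟨⟨h1, h2, h3⟩, h4, h5, h6⟩, h7⟩, h8⟩ := hq
        obtain ⟨⟨⟨⟨h1', h2', h3'⟩, h4', h5', h6'⟩, h7'⟩, h8'⟩ := hq'
        dsimp only at h2 h3 h8 h2' h3' h8' h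
        simp only [Prod.mk.injEq] at h ⊢
        omega
    · rw [Nat.le_zero, card_eq_zero, filter_eq_empty_iff]
      intro q hq h8
      rw [mem_filter, mem_QQ] at hq
      obtain ⟨⟨⟨h1, h2, h3⟩, h4, h5, h6⟩, h7⟩ := hq
      unfold nn at h7
      exact hex ⟨q.1 + q.2.1, h4, by omega⟩
  have h1 : (((QQ A N).filter (fun q => nn q = n)).card : ℝ) ≤
      ((if (∃ a ∈ A, 2 * a = n) then R.card else 0 : ℕ) : ℝ) + (R.offDiag.card : ℝ) := by
    rw [hsplit]
    exact_mod_cast Nat.add_le_add hdiag hoff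
  have h2 : (R.offDiag.card : ℝ) = (rs A n : ℝ) * ((rs A n : ℝ) - 1) := by
    rw [hrs, offDiag_card, Nat.cast_sub (Nat.le_mul_self _), Nat.cast_mul]
    ring
  rw [h2] at h1
  refine h1.trans (le_of_eq ?_)
  rw [hrs, add_comm]
  congr 1
  split_ifs
  · rfl
  · exact Nat.cast_zero

theorem quad : S_quad := by
  classical
  intro A N hA
  rw [EN_eq A N hA]
  refine add_le_add le_rfl ?_
  have h1 : 2 * ∑ q ∈ QQ A N, FF q.2.1 q.2.2 (nn q) ≤ ∑ q ∈ QQ A N, 1 / (nn q : ℝ) := by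
    have h2 : 2 * ∑ q ∈ QQ A N, FF q.2.1 q.2.2 (nn q) =
        ∑ q ∈ QQ A N, (FF q.2.1 q.2.2 (nn q) + FF q.2.2 q.2.1 (nn q)) := by
      rw [sum_add_distrib, ← QQ_swap]
      ring
    rw [h2]
    refine sum_le_sum fun q hq => FF_add ?_
    rw [mem_QQ] at hq
    unfold nn
    exact_mod_cast (by omega : 0 < 2 * q.1 + q.2.1 + q.2.2)
  refine h1.trans ?_
  have h3 : ∀ q ∈ QQ A N, nn q ∈ Icc 1 (2 * N) := by
    intro q hq
    rw [mem_QQ] at hq
    obtain ⟨⟨h1, h2, h3⟩, h4, h5, h6⟩ := hq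
    have h7 := hA _ h1
    have h8 := hA _ h6
    rw [mem_Icc]
    unfold nn
    omega
  rw [← sum_fiberwise_of_maps_to h3]
  refine sum_le_sum fun n hn => ?_
  have h4 : ∑ q ∈ (QQ A N).filter (fun q => nn q = n), 1 / (nn q : ℝ) =
      1 / (n : ℝ) * (((QQ A N).filter (fun q => nn q = n)).card : ℝ) := by
    rw [sum_congr rfl (fun q hq => by rw [(mem_filter.1 hq).2] :
      ∀ q ∈ (QQ A N).filter (fun q => nn q = n), 1 / (nn q : ℝ) = 1 / (n : ℝ)), sum_const,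
      nsmul_eq_mul, mul_comm]
  rw [h4]
  refine mul_le_mul_of_nonneg_left (card_bound A N n) ?_
  positivity

end

end Pool.Agent.W503.ET
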